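import Mathlib

set_option linter.unusedSectionVars false

namespace Pool.Agent.X143.RS

open MeasureTheory Filter Topology ENNReal Metric

section alg

variable {E : Type*} [MetricSpace E] (x : ℕ → E) (r : ℕ → ℝ≥0∞)

/-- the index chosen at step `m` for the closed set `F` -/
noncomputable def kk : ℕ → Set E → ℕ
  | 0, F => sInf {k | infEDist (x k) F < r 0}
  | m + 1, F => sInf {k | edist (x k) (x (kk m F)) < r m + r (m + 1) ∧
      infEDist (x k) F < r (m + 1)}

variable {x r}

lemma nonempty0 (hx : DenseRange x) (hr : ∀ m, 0 < r m) {F : Set E} (hF : F.Nonempty) :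
    {k | infEDist (x k) F < r 0}.Nonempty := by
  obtain ⟨y, hy⟩ := hF
  have h1 := hx.exists_mem_open (isOpen_eball (x := y) (ε := r 0)) ⟨y, by
    rw [mem_eball, edist_self]
    exact hr 0⟩
  obtain ⟨k, hk⟩ := h1
  exact ⟨k, infEDist_lt_iff.2 ⟨y, hy, hk⟩⟩

lemma nonempty1 (hx : DenseRange x) (hr : ∀ m, 0 < r m) {F : Set E} {m j : ℕ}
    (hj : infEDist (x j) F < r m) :
    {k | edist (x k) (x j) < r m + r (m + 1) ∧ infEDist (x k) F < r (m + 1)}.Nonempty := by
  obtain ⟨y, hy, hyj⟩ := infEDist_lt_iff.1 hj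
  have h1 := hx.exists_mem_open (isOpen_eball (x := y) (ε := r (m + 1))) ⟨y, by
    rw [mem_eball, edist_self]
    exact hr (m + 1)⟩
  obtain ⟨k, hk⟩ := h1
  refine ⟨k, ?_, infEDist_lt_iff.2 ⟨y, hy, hk⟩⟩
  calc edist (x k) (x j) ≤ edist (x k) y + edist y (x j) := edist_triangle _ _ _
    _ = edist y (x j) + edist (x k) y := add_comm _ _
    _ < r m + r (m + 1) := by
      apply ENNReal.add_lt_add
      · rw [edist_comm]
        exact hyj
      · exact hk

lemma kk_dist (hx : DenseRange x) (hr : ∀ m, 0 < r m) {F : Set E} (hF : F.Nonempty) (m : ℕ) :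
    infEDist (x (kk x r m F)) F < r m := by
  induction m with
  | zero => exact Nat.sInf_mem (nonempty0 hx hr hF)
  | succ m ih => exact (Nat.sInf_mem (nonempty1 hx hr ih)).2

lemma kk_step (hx : DenseRange x) (hr : ∀ m, 0 < r m) {F : Set E} (hF : F.Nonempty) (m : ℕ) :
    edist (x (kk x r (m + 1) F)) (x (kk x r m F)) < r m + r (m + 1) :=
  (Nat.sInf_mem (nonempty1 hx hr (kk_dist hx hr hF m))).1

lemma kk_empty (m : ℕ) : kk x r m (∅ : Set E) = 0 := by
  cases m with
  | zero =>
    have : {k | infEDist (x k) (∅ : Set E) < r 0} = ∅ := by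
      ext k
      simp
    rw [kk, this, Nat.sInf_empty]
  | succ m =>
    have : {k | edist (x k) (x (kk x r m ∅)) < r m + r (m + 1) ∧
      infEDist (x k) (∅ : Set E) < r (m + 1)} = ∅ := by
      ext k
      simp
    rw [kk, this, Nat.sInf_empty]

lemma kk_cauchy_step (hx : DenseRange x) (hr : ∀ m, 0 < r m) (hr' : ∀ m, r m ≤ 1 / 2 ^ m)
    (F : Set E) (m : ℕ) : edist (x (kk x r m F)) (x (kk x r (m + 1) F)) ≤ 2 / 2 ^ m := by
  rcases F.eq_empty_or_nonempty with rfl | hF
  · rw [kk_empty, kk_empty, edist_self]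
    exact zero_le
  · rw [edist_comm]
    refine (kk_step hx hr hF m).le.trans ?_
    have h1 : r (m + 1) ≤ 1 / 2 ^ m := by
      refine (hr' (m + 1)).trans ?_
      apply ENNReal.div_le_div_left
      exact pow_le_pow_right₀ (by norm_num) (by omega)
    calc r m + r (m + 1) ≤ 1 / 2 ^ m + 1 / 2 ^ m := add_le_add (hr' m) h1
      _ = 2 / 2 ^ m := by
        rw [← ENNReal.add_div]
        norm_num

lemma exists_lim [CompleteSpace E] (hx : DenseRange x) (hr : ∀ m, 0 < r m)
    (hr' : ∀ m, r m ≤ 1 / 2 ^ m) (F : Set E) :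
    ∃ y, Tendsto (fun m => x (kk x r m F)) atTop (𝓝 y) :=
  cauchySeq_tendsto_of_complete
    (cauchySeq_of_edist_le_geometric_two 2 (by norm_num) (kk_cauchy_step hx hr hr' F))

/-- the selected point -/
noncomputable def sel [CompleteSpace E] (hx : DenseRange x) (hr : ∀ m, 0 < r m)
    (hr' : ∀ m, r m ≤ 1 / 2 ^ m) (F : Set E) : E := (exists_lim hx hr hr' F).choose

lemma sel_tendsto [CompleteSpace E] (hx : DenseRange x) (hr : ∀ m, 0 < r m)
    (hr' : ∀ m, r m ≤ 1 / 2 ^ m) (F : Set E) :
    Tendsto (fun m => x (kk x r m F)) atTop (𝓝 (sel hx hr hr' F)) :=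
  (exists_lim hx hr hr' F).choose_spec

lemma sel_dist [CompleteSpace E] (hx : DenseRange x) (hr : ∀ m, 0 < r m)
    (hr' : ∀ m, r m ≤ 1 / 2 ^ m) (F : Set E) (m : ℕ) :
    edist (x (kk x r m F)) (sel hx hr hr' F) ≤ 4 / 2 ^ m := by
  have h := edist_le_of_edist_le_geometric_two_of_tendsto 2 (kk_cauchy_step hx hr hr' F)
    (sel_tendsto hx hr hr' F) m
  refine h.trans (le_of_eq ?_)
  norm_num

lemma tendsto_four : Tendsto (fun m : ℕ => (4 : ℝ≥0∞) / 2 ^ m) atTop (𝓝 0) := by
  have h1 : Tendsto (fun m : ℕ => ((2 : ℝ≥0∞)⁻¹) ^ m) atTop (𝓝 0) :=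
    ENNReal.tendsto_pow_atTop_nhds_zero_of_lt_one (by
      rw [ENNReal.inv_lt_one]
      norm_num)
  have h2 := ENNReal.Tendsto.const_mul (a := 4) h1 (Or.inr (by norm_num))
  rw [mul_zero] at h2
  refine h2.congr fun m => ?_
  rw [← ENNReal.inv_pow, div_eq_mul_inv]

lemma tendsto_r (hr' : ∀ m, r m ≤ 1 / 2 ^ m) : Tendsto r atTop (𝓝 0) := by
  refine tendsto_of_tendsto_of_tendsto_of_le_of_le tendsto_const_nhds tendsto_four
    (fun m => zero_le) fun m => (hr' m).trans ?_
  exact ENNReal.div_le_div_right (by norm_num) _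

lemma sel_mem [CompleteSpace E] (hx : DenseRange x) (hr : ∀ m, 0 < r m)
    (hr' : ∀ m, r m ≤ 1 / 2 ^ m) {F : Set E} (hF : F.Nonempty) (hFc : IsClosed F) :
    sel hx hr hr' F ∈ F := by
  rw [mem_iff_infEDist_zero_of_closed hFc]
  have h1 : ∀ m, infEDist (sel hx hr hr' F) F ≤ r m + 4 / 2 ^ m := by
    intro m
    refine (infEDist_le_infEDist_add_edist (y := x (kk x r m F))).trans ?_
    refine add_le_add (kk_dist hx hr hF m).le ?_
    rw [edist_comm]
    exact sel_dist hx hr hr' F m
  have h2 : Tendsto (fun m => r m + 4 / 2 ^ m) atTop (𝓝 (0 + 0)) := (tendsto_r hr').add tendsto_four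
  rw [add_zero] at h2
  exact le_antisymm (ge_of_tendsto' h2 h1) zero_le

/-- the path up to step `m` is determined by finitely many comparisons -/
lemma path_congr (hx : DenseRange x) (hr : ∀ m, 0 < r m) {F F' : Set E} (hF : F.Nonempty)
    {m K : ℕ} {a : ℕ → ℕ} (ha : ∀ i ≤ m, a i ≤ K)
    (hpat : ∀ i ≤ m, ∀ b ≤ K, (infEDist (x b) F < r i ↔ infEDist (x b) F' < r i))
    (hpath : ∀ i ≤ m, kk x r i F = a i) : ∀ i ≤ m, kk x r i F' = a i := by
  intro i
  induction i with
  | zero =>
    intro h0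
    have h1 := hpath 0 h0
    have h2 := Nat.sInf_mem (nonempty0 hx hr hF)
    rw [kk] at h1
    rw [h1] at h2
    rw [kk]
    apply le_antisymm
    · apply Nat.sInf_le
      exact (hpat 0 h0 _ (ha 0 h0)).1 h2
    · by_contra hlt
      rw [not_le] at hlt
      have h3 : {k | infEDist (x k) F' < r 0}.Nonempty :=
        ⟨a 0, (hpat 0 h0 _ (ha 0 h0)).1 h2⟩
      have h4 := Nat.sInf_mem h3
      have h5 : sInf {k | infEDist (x k) F' < r 0} ∈ {k | infEDist (x k) F < r 0} :=
        (hpat 0 h0 _ (hlt.le.trans (ha 0 h0))).2 h4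
      have h6 := Nat.sInf_le h5
      rw [h1] at h6
      omega
  | succ i ih =>
    intro hi
    have hi' : i ≤ m := by omega
    have h0 := ih hi'
    have h1 := hpath (i + 1) hi
    have h2 := Nat.sInf_mem (nonempty1 hx hr (kk_dist hx hr hF i))
    rw [kk] at h1
    rw [h1] at h2
    rw [kk, h0]
    rw [hpath i hi'] at h1 h2
    have h2' : a (i + 1) ∈ {k | edist (x k) (x (a i)) < r i + r (i + 1) ∧
        infEDist (x k) F' < r (i + 1)} :=
      ⟨h2.1, (hpat (i + 1) hi _ (ha (i + 1) hi)).1 h2.2⟩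
    apply le_antisymm
    · exact Nat.sInf_le h2'
    · by_contra hlt
      rw [not_le] at hlt
      have h4 := Nat.sInf_mem ⟨_, h2'⟩
      have h5 : sInf {k | edist (x k) (x (a i)) < r i + r (i + 1) ∧ infEDist (x k) F' < r (i + 1)} ∈
          {k | edist (x k) (x (a i)) < r i + r (i + 1) ∧ infEDist (x k) F < r (i + 1)} :=
        ⟨h4.1, (hpat (i + 1) hi _ (hlt.le.trans (ha (i + 1) hi))).2 h4.2⟩
      have h6 := Nat.sInf_le h5
      rw [h1] at h6
      omega

end alg

section meas

variable {Ω : Type*} [MeasurableSpace Ω]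

lemma measurable_sInf_nat {p : ℕ → Ω → Prop} (hp : ∀ k, MeasurableSet {ω | p k ω}) :
    Measurable fun ω => sInf {k | p k ω} := by
  apply measurable_to_countable'
  intro a
  have h1 : (fun ω => sInf {k | p k ω}) ⁻¹' {a} =
      ({ω | p a ω} ∩ ⋂ b : {b // b < a}, {ω | p b ω}ᶜ) ∪
        (if a = 0 then ⋂ b : ℕ, {ω | p b ω}ᶜ else ∅) := by
    ext ω
    constructor
    · intro h
      have h' : sInf {k | p k ω} = a := h
      rcases Set.eq_empty_or_nonempty {k | p k ω} with he | hne
      · right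
        rw [he, Nat.sInf_empty] at h'
        rw [if_pos h'.symm, Set.mem_iInter]
        intro b hb
        have : b ∈ {k | p k ω} := hb
        rw [he] at this
        exact this
      · left
        have h2 := Nat.sInf_mem hne
        rw [h'] at h2
        refine ⟨h2, ?_⟩
        rw [Set.mem_iInter]
        rintro ⟨b, hb⟩ hpb
        have h3 : sInf {k | p k ω} ≤ b := Nat.sInf_le hpb
        omega
    · rintro (⟨h1, h2⟩ | h)
      · rw [Set.mem_iInter] at h2
        have h3 : sInf {k | p k ω} ≤ a := Nat.sInf_le h1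
        have h4 : sInf {k | p k ω} ∈ {k | p k ω} := Nat.sInf_mem ⟨a, h1⟩
        by_contra hne
        have h5 : sInf {k | p k ω} < a := lt_of_le_of_ne h3 hne
        exact h2 ⟨_, h5⟩ h4
      · split_ifs at h with ha
        · rw [Set.mem_iInter] at h
          have he : {k | p k ω} = ∅ := by
            ext k
            exact ⟨fun hk => h k hk, fun hk => hk.elim⟩
          change sInf {k | p k ω} = a
          rw [he, Nat.sInf_empty, ha]
        · exact h.elim
  rw [h1]
  apply MeasurableSet.union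
  · exact (hp a).inter (MeasurableSet.iInter fun b => (hp b).compl)
  · split_ifs
    · exact MeasurableSet.iInter fun b => (hp b).compl
    · exact MeasurableSet.empty

variable {E : Type*} [MetricSpace E] {x : ℕ → E} {r : ℕ → ℝ≥0∞} {X : Ω → Set E}

lemma measurable_infEDist_of_effros
    (hX : ∀ G : Set E, IsOpen G → MeasurableSet {ω | (X ω ∩ G).Nonempty}) (y : E) :
    Measurable fun ω => infEDist y (X ω) := by
  apply measurable_of_Iio
  intro c
  have : (fun ω => infEDist y (X ω)) ⁻¹' Set.Iio c = {ω | (X ω ∩ eball y c).Nonempty} := by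
    ext ω
    change infEDist y (X ω) < c ↔ (X ω ∩ eball y c).Nonempty
    rw [infEDist_lt_iff]
    constructor
    · rintro ⟨z, hz, hzc⟩
      exact ⟨z, hz, by rw [mem_eball, edist_comm]; exact hzc⟩
    · rintro ⟨z, hz, hzc⟩
      exact ⟨z, hz, by rw [mem_eball, edist_comm] at hzc; exact hzc⟩
  rw [this]
  exact hX _ isOpen_eball

lemma measurable_kk
    (hX : ∀ G : Set E, IsOpen G → MeasurableSet {ω | (X ω ∩ G).Nonempty}) (m : ℕ) :
    Measurable fun ω => kk x r m (X ω) := by
  induction m with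
  | zero =>
    simp only [kk]
    exact measurable_sInf_nat fun k =>
      measurableSet_lt (measurable_infEDist_of_effros hX (x k)) measurable_const
  | succ m ih =>
    have h1 : ∀ j : ℕ, Measurable fun ω => sInf {k | edist (x k) (x j) < r m + r (m + 1) ∧
      infEDist (x k) (X ω) < r (m + 1)} := by
      intro j
      refine measurable_sInf_nat fun k => ?_
      exact (MeasurableSet.const _).inter
        (measurableSet_lt (measurable_infEDist_of_effros hX (x k)) measurable_const)
    apply measurable_to_countable'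
    intro a
    have h2 : (fun ω => kk x r (m + 1) (X ω)) ⁻¹' {a} = ⋃ j : ℕ,
        ((fun ω => kk x r m (X ω)) ⁻¹' {j} ∩ (fun ω => sInf {k | edist (x k) (x j)
          < r m + r (m + 1) ∧ infEDist (x k) (X ω) < r (m + 1)}) ⁻¹' {a}) := by
      ext ω
      simp only [Set.mem_preimage, Set.mem_singleton_iff, Set.mem_iUnion, Set.mem_inter_iff]
      constructor
      · intro h
        exact ⟨_, rfl, h⟩
      · rintro ⟨j, hj, h⟩
        rw [kk, hj]
        exact h
    rw [h2]
    exact MeasurableSet.iUnion fun j =>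
      (ih (measurableSet_singleton j)).inter (h1 j (measurableSet_singleton a))

lemma measurable_sel [CompleteSpace E] [MeasurableSpace E] [BorelSpace E] (hx : DenseRange x)
    (hr : ∀ m, 0 < r m) (hr' : ∀ m, r m ≤ 1 / 2 ^ m)
    (hX : ∀ G : Set E, IsOpen G → MeasurableSet {ω | (X ω ∩ G).Nonempty}) :
    Measurable fun ω => sel hx hr hr' (X ω) := by
  apply measurable_of_tendsto_metrizable (f := fun m ω => x (kk x r m (X ω)))
  · intro m
    exact measurable_from_nat.comp (measurable_kk hX m)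
  · rw [tendsto_pi_nhds]
    intro ω
    exact sel_tendsto hx hr hr' (X ω)

end meas

end Pool.Agent.X143.RS
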